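import Pool.Agent.Lib.MP_0dd7b8_al.Final

/-!
# A structurally sharply 4-transitive action on the free superposition of the random 4-tournament
and the triangle-free random graph
-/

set_option autoImplicit false

namespace Pool.Agent.Results.MP_0dd7b8_al.SharplyFourTransitive

open FirstOrder FirstOrder.Language CategoryTheory Equiv Pool.Agent.Lib.MP_0dd7b8_al

/-- There are arbitrarily large structures in the class. -/
theorem exists_large (n : ℕ) : ∃ N ∈ mixClass, Nonempty (N ≃ Fin n) := by
  obtain ⟨R, R1, R2, -, -⟩ := exists_orientation (Γ := (⊥ : Subgroup (Perm (Fin n)))) (Z := Fin n)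
    ∅ (fun _ => True) (fun x hx => absurd hx (Set.notMem_empty x))
    (fun x hx => absurd hx (Set.notMem_empty x))
    (by
      intro x g σ hx h
      have hg : g = 1 := Subsingleton.elim _ _
      rw [hg, one_smul] at h
      have : σ = 1 := by
        ext i
        exact congrArg _ (hx (congrFun h i).symm)
      rw [this, map_one])
  let S : Str (Fin n) := {
    E := fun _ _ => False
    R := R
    E_symm := fun _ _ h => h
    E_irrefl := fun _ h => h
    E_tri := fun _ _ _ h _ _ => h
    R_inj := R1
    R_alt := R2 }
  refine ⟨@Bundled.of _ (Fin n) S.toStructure, ⟨?_, ?_, ?_⟩, ⟨Equiv.refl _⟩⟩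
  · exact (inferInstance : Finite (Fin n))
  · exact S.isTriangleFree
  · exact S.isFourTournament

theorem infinite_of_limit {M : Type} [lang.Structure M] [Countable M]
    (hM : IsFraisseLimit mixClass M) : Infinite M := by
  by_contra h
  rw [not_infinite_iff_finite] at h
  obtain ⟨N, hN, ⟨e⟩⟩ := exists_large (Nat.card M + 1)
  rw [← hM.age] at hN
  obtain ⟨-, ⟨f⟩⟩ := hN
  have h1 := Nat.card_le_card_of_injective (f ∘ e.symm) (f.injective.comp e.symm.injective)
  rw [Nat.card_fin] at h1
  omega

/-- The class of finite structures whose `E`-reduct is a triangle-free graph and whose `R`-reduct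
is a 4-tournament has a Fraïssé limit, and on every Fraïssé limit of this class, that is on the
free superposition of the random 4-tournament and of the triangle-free random graph, some
countable group acts structurally sharply 4-transitively. -/
theorem result :
    (∃ (M : Type) (_ : lang.Structure M) (_ : Countable M), IsFraisseLimit mixClass M) ∧
    ∀ (M : Type) [lang.Structure M] [Countable M], IsFraisseLimit mixClass M →
      Infinite M ∧ ∃ (G : Type) (_ : Group G) (_ : MulAction G M),
        Countable G ∧ StructurallySharplyTransitive 4 G M := by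
  obtain ⟨P, hP⟩ := saturated
  refine ⟨⟨P.Ω, P.S.toStructure, P.cnt, isLimit hP⟩, ?_⟩
  intro M _ _ hM
  refine ⟨infinite_of_limit hM, ?_⟩
  letI := P.S.toStructure
  obtain ⟨φ⟩ := hM.nonempty_equiv (isLimit hP)
  letI act : MulAction P.G M := {
    smul := fun g x => φ.symm (g • φ x)
    one_smul := fun x => by
      change φ.symm ((1 : P.G) • φ x) = x
      rw [one_smul, Language.Equiv.symm_apply_apply]
    mul_smul := fun g g' x => by
      change φ.symm ((g * g') • φ x) = φ.symm (g • φ (φ.symm (g' • φ x)))
      rw [Language.Equiv.apply_symm_apply, mul_smul] }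
  have hact : ∀ (g : P.G) (x : M), φ (g • x) = g • φ x := fun g x =>
    Language.Equiv.apply_symm_apply φ _
  have hE : ∀ x y : M, P.S.E (φ x) (φ y) ↔ Edge x y := by
    intro x y
    exact φ.map_rel (L := lang) Sym.edge ![x, y]
  have hR : ∀ x : Fin 4 → M, P.S.R (φ ∘ x) ↔ Tour x := by
    intro x
    exact φ.map_rel (L := lang) Sym.tour x
  refine ⟨P.G, P.grp, act, P.countable_G, ?_, ?_, ?_⟩
  · obtain ⟨x, hx⟩ := P.four
    exact ⟨φ.symm ∘ x, φ.symm.injective.comp hx⟩
  · intro g n r x
    cases r with
    | edge =>
      rw [relMap_edge, relMap_edge, ← hE, ← hE, hact, hact]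
      exact P.good.mapE g _ _
    | tour =>
      change Tour (fun i => g • x i) ↔ Tour x
      rw [← hR, ← hR]
      have : φ ∘ (fun i => g • x i) = g • (φ ∘ x) := funext fun i => hact g (x i)
      rw [this]
      exact P.good.mapR g _
  · intro a b ha hb hab
    have h1 : ∀ i j, P.S.E (φ (a i)) (φ (a j)) ↔ P.S.E (φ (b i)) (φ (b j)) := by
      intro i j
      have h2 := hab 2 Sym.edge ![i, j]
      rw [relMap_edge, relMap_edge] at h2
      rw [hE, hE]
      exact h2
    have h2 : P.S.R (φ ∘ a) ↔ P.S.R (φ ∘ b) := by
      rw [hR, hR]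
      exact hab 4 Sym.tour id
    obtain ⟨g, hg⟩ := hP (.tup (φ ∘ a) (φ ∘ b)) (φ.injective.comp ha) (φ.injective.comp hb) h1 h2
    refine ⟨g, ?_, ?_⟩
    · intro i
      apply φ.injective
      rw [hact]
      exact congrFun hg i
    · intro g' hg'
      have h3 : (g⁻¹ * g') • (φ ∘ a) = φ ∘ a := by
        rw [mul_smul, inv_smul_eq_iff, hg]
        funext i
        change g' • φ (a i) = φ (b i)
        rw [← hact, hg']
      have h4 := P.good.sharp _ _ (φ.injective.comp ha) h3
      rw [inv_mul_eq_one] at h4
      exact h4.symm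

end Pool.Agent.Results.MP_0dd7b8_al.SharplyFourTransitive
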